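import Pool.Agent.KS6_60.Lib.Sg5

/-! Intersection graphs of balls. -/

namespace Pool.Agent.KS6_60.BL

open Pool.Agent.KS6_60.Lib.CX Pool.Agent.KS6_60.Lib.ER Pool.Agent.KS6_60.Lib.SG Filter Topology Module

set_option synthInstance.maxSize 4000

def G {d} (x y : Pt d) : ℝ := (x.1 + y.1) ^ 2 - (x.2 ⬝ᵥ x.2 + y.2 ⬝ᵥ y.2 - 2 * x.2 ⬝ᵥ y.2)

def BL (d : ℕ) (a : Gr) : Prop := Rep (fun x : Pt d => 0 < x.1) (fun x y => 0 ≤ G x y) a

theorem memb (d) : Red (BL d) ETR := by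
  have := rep_memb (Q := fun _ => True) (P := fun x : Pt d => 0 < x.1) (R := fun _ x y => 0 ≤ G x y)
    (χ := .eq (.num 0) (.num 0)) (ψ := fun u => .lt (.num 0) (.var (1 + (d + 1) * u)))
    (φ := fun e => .le (.add (dt (2 + (d + 1) * e.1) (2 + (d + 1) * e.1) d) (dt (2 + (d + 1) * e.2) (2 + (d + 1) * e.2) d))
      (.add (.mul (.add (.var (1 + (d + 1) * e.1)) (.var (1 + (d + 1) * e.2)))
        (.add (.var (1 + (d + 1) * e.1)) (.var (1 + (d + 1) * e.2))))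
      (.mul (.num 2) (dt (2 + (d + 1) * e.1) (2 + (d + 1) * e.2) d)))) (by fun_prop)
    (pt_le (pt_add (pt_dt (by fun_prop) (by fun_prop) d) (pt_dt (by fun_prop) (by fun_prop) d))
      (pt_add (by fun_prop) (pt_mul (PT.const _) (pt_dt (by fun_prop) (by fun_prop) d))))
    (fun x => by simp [Fm.Holds]) (fun x u => by simp [Fm.Holds, Tm.eval, pt])
    (fun x u v => by simp [Fm.Holds, Tm.eval, dt_eval, G, pt, sq])
  simp only [true_and, exists_const] at this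
  exact this

variable {N : Type} [DecidableEq N] [Inhabited N]

def vs (I : Inst N) : List (ℕ × Bool × N) := (([true, false] ×ˢ I.1).map fun i => (0, i)) ++
  (([true, false] ×ˢ I.2.1).map fun i => (1, i)) ++ [(2, default), (3, default), (4, default)]

def r (I : Inst N) (u v : ℕ × Bool × N) : Bool := decide (u.1 = v.1 ∨ u.1 = 0 ∧ v.1 = 1 ∧ (u.2.2, v.2.2) ∈ I.2.2 ∨
  u.1 + 2 ≤ v.1 ∧ v.1 ≤ 3 * u.1 + 2 ∧ u.1 < 2 ∧ u.2.1 = true ∨ 2 ≤ u.1 ∧ u.1 + 1 = v.1)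

theorem pt_red [Enc N] : PT fun I : Inst N => gr (vs I) (r I) := by unfold gr vs r; fun_prop

theorem G_comm {d} (x y : Pt d) : G x y = G y x := by rw [G, G, dotProduct_comm x.2 y.2]; ring

theorem mem_vs {I : Inst N} {t s i} : (t, s, i) ∈ vs I ↔ t = 0 ∧ i ∈ I.1 ∨ t = 1 ∧ i ∈ I.2.1 ∨
    (t = 2 ∨ t = 3 ∨ t = 4) ∧ (s, i) = default := by
  cases s <;> simp [vs, and_comm, eq_comm, or_and_right, or_assoc]

theorem bl_iff {d} (I : Inst N) : BL d (gr (vs I) (r I)) ↔ ∃ c : ℕ × Bool × N → Pt d,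
    (∀ u ∈ vs I, 0 < (c u).1) ∧ ∀ u ∈ vs I, ∀ v ∈ vs I, u.1 ≤ v.1 → u ≠ v → (r I u v ↔ 0 ≤ G (c u) (c v)) :=
  rep_gr (fun u v h => by simp [r, h]) fun x y h => G_comm x y ▸ h

noncomputable def B (d : ℕ) : (ℝ × ℝ × Pt d) →ₗ[ℝ] (ℝ × ℝ × Pt d) →ₗ[ℝ] ℝ :=
  LinearMap.mk₂ ℝ (fun p l => p.1 * l.2.1 + p.2.1 * l.1 + 2 * (p.2.2.1 * l.2.2.1 + p.2.2.2 ⬝ᵥ l.2.2.2))
    (fun _ _ _ => by simp; ring) (fun _ _ _ => by simp; ring) (fun _ _ _ => by simp; ring) (fun _ _ _ => by simp; ring)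

theorem B_comm {d} (x y) : B d x y = B d y x := by simp [B, dotProduct_comm x.2.2.2]; ring

theorem sound {d} (I : Inst N) (h : BL d (gr (vs I) (r I))) : SR (d + 1) I := by
  obtain ⟨c, p, h⟩ := (bl_iff I).1 h
  have : ∀ᶠ η in 𝓝[>] (0 : ℝ), ∀ u ∈ vs I, ∀ v ∈ vs I, u.1 ≤ v.1 → u ≠ v →
      S (r I u v) (G ((c u).1 + η, (c u).2) ((c v).1 + η, (c v).2)) := ev_all _ fun u hu => ev_all _ fun v hv => by
    by_cases q : u.1 ≤ v.1 ∧ u ≠ v
    · have k := h u hu v hv q.1 q.2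
      by_cases t : r I u v
      · filter_upwards [self_mem_nhdsWithin] with η (e : 0 < η) _ _
        have := k.1 t
        simp only [t, G, S_true] at this ⊢
        nlinarith [p u hu, p v hv]
      · refine (ev_S (b := False) (g := fun η => G ((c u).1 + η, (c u).2) ((c v).1 + η, (c v).2))
          (by unfold G; fun_prop) (by simpa [t] using k) 0).mono fun η e _ _ => by simpa [t] using e
    · exact .of_forall fun _ a b => (q ⟨a, b⟩).elim
  obtain ⟨η, h⟩ := this.exists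
  obtain ⟨Φ, f1, f2⟩ : ∃ Φ : ℕ × Bool × N → ℝ × ℝ × Pt d, (∀ u, (Φ u).1 = 1) ∧ ∀ u ∈ vs I, ∀ v ∈ vs I, u.1 < v.1 →
      S (r I u v) (B d (Φ v) (Φ u)) := ⟨fun u => (1, ((c u).1 + η) ^ 2 - (c u).2 ⬝ᵥ (c u).2, (c u).1 + η, (c u).2),
    fun _ => rfl, fun u hu v hv q => by
      convert h u hu v hv q.le (fun e => q.ne (congrArg Prod.fst e)) using 1
      simp [B, G, dotProduct_comm (c v).2]; ring⟩
  have m0 : ∀ s, ∀ i ∈ I.1, (0, s, i) ∈ vs I := fun s i a => mem_vs.2 (.inl ⟨rfl, a⟩)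
  have m1 : ∀ s, ∀ i ∈ I.2.1, (1, s, i) ∈ vs I := fun s i a => mem_vs.2 (.inr (.inl ⟨rfl, a⟩))
  have m2 : ((2, default) : ℕ × Bool × N) ∈ vs I := by simp [vs]
  have m3 : ((3, default) : ℕ × Bool × N) ∈ vs I := by simp [vs]
  have m4 : ((4, default) : ℕ × Bool × N) ∈ vs I := by simp [vs]
  have a1 : 0 < B d (Φ (2, default)) (Φ (3, default)) := by simpa [r, B_comm] using f2 _ m2 _ m3 (by simp)
  have a2 : B d (Φ (2, default)) (Φ (4, default)) < 0 := by simpa [r, B_comm] using f2 _ m2 _ m4 (by simp)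
  obtain ⟨g, g1, g2, g3⟩ : ∃ g, B d (Φ (2, default)) g = 0 ∧ g.1 ≠ 0 ∧
      ∀ s, ∀ j ∈ I.2.1, S (s = true) (B d g (Φ (1, s, j))) := by
    obtain ⟨a, b, a0, b0, e⟩ := comb2 (B d (Φ (2, default))) (Φ (3, default)) (Φ (4, default))
    refine ⟨_, e a1 a2, by simp [f1]; positivity, fun s j hj => S.comb (φ := (B d).flip _) a0 b0 ?_ ?_⟩
    · simpa [r] using f2 _ (m1 s j hj) _ m3 (by simp)
    · simpa [r] using f2 _ (m1 s j hj) _ m4 (by simp)
  choose a b a0 b0 e using fun i => comb2 (B d (Φ (2, default))) (Φ (0, true, i)) (Φ (0, false, i))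
  choose a' b' a0' b0' e' using fun j => comb2 (B d g) (Φ (1, true, j)) (Φ (1, false, j))
  let U := LinearMap.ker (B d (Φ (2, default)))
  let ψ : U →ₗ[ℝ] ℝ := (LinearMap.fst ℝ ℝ _).domRestrict U
  have r1 := ker_le (φ := B d (Φ (2, default))) fun q => by simp [q] at a1
  have r2 := ker_le (φ := ψ) fun q => g2 (LinearMap.congr_fun q ⟨g, g1⟩)
  simp only [finrank_prod, finrank_self, finrank_fintype_fun_eq_card, Fintype.card_fin] at r1
  have z : ∀ i ∈ I.1, B d (Φ (2, default)) (a i • Φ (0, true, i) + b i • Φ (0, false, i)) = 0 := fun i hi =>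
    e i (by simpa [r] using f2 _ (m0 true i hi) _ m2 (by simp)) (by simpa [r] using f2 _ (m0 false i hi) _ m2 (by simp))
  refine ⟨LinearMap.ker ψ, inferInstance, inferInstance, inferInstance, by have r3 : finrank ℝ U + 1 = _ := r1; omega,
    fun i => if hi : i ∈ I.1 then ⟨⟨a i • Φ (0, true, i) + b i • Φ (0, false, i) - ((a i + b i) / g.1) • g,
      by simp only [U, LinearMap.mem_ker, map_sub, z i hi, map_smul, g1, smul_zero, sub_zero]⟩,
      by simp [ψ, f1, g2]⟩ else 0,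
    fun j => ((B d (a' j • Φ (1, true, j) + b' j • Φ (1, false, j))).domRestrict U).domRestrict _, fun i hi j hj => ?_⟩
  have k := e' j ((g3 true j hj).1 rfl) ((g3 false j hj).2 (by simp))
  have l : ∀ s t, S ((i, j) ∈ I.2.2) (B d (Φ (1, t, j)) (Φ (0, s, i))) := fun s t => by
    simpa [r] using f2 _ (m0 s i hi) _ (m1 t j hj) (by simp)
  simp only [hi, dif_pos, LinearMap.domRestrict_apply, map_sub, map_smul]
  rw [B_comm _ g, k, smul_zero, sub_zero]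
  exact S.comb (a0 i) (b0 i) (S.comb (φ := (B d).flip _) (a0' j) (b0' j) (l _ _) (l _ _))
    (S.comb (φ := (B d).flip _) (a0' j) (b0' j) (l _ _) (l _ _))

/-- the form on (radius, two coordinates of the centre, remaining coordinates) -/
def G4 {m} (x y : ℝ × ℝ × Pt m) : ℝ :=
  (x.1 + y.1) ^ 2 - (x.2.1 - y.2.1) ^ 2 - (x.2.2.1 - y.2.2.1) ^ 2 -
    (x.2.2.2 ⬝ᵥ x.2.2.2 + y.2.2.2 ⬝ᵥ y.2.2.2 - 2 * x.2.2.2 ⬝ᵥ y.2.2.2)

theorem e0 (b : Prop) (g : ℝ → ℝ) (a : Continuous g) (c : S b (g 0)) : ∀ᶠ ε in 𝓝[>] (0 : ℝ), S b (g ε) := by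
  simpa using ev_S a c 0

/-- the last coordinates -/
def tl {m} (y : Fin (m + 1) → ℝ) : Fin m → ℝ := fun j => y j.succ

/-- correction of the radius -/
noncomputable def Qf (ε A b Y : ℝ) : ℝ := (A ^ 2 + Y) / 4 * (1 - ε * b / 2)

/-- tangency to the ball of radius `1 + τ` at the corner below -/
theorem tang {ε A b Y σ τ : ℝ} : (1 + ε * b + ε ^ 2 * Qf ε A b Y + ε ^ 3 * σ + (1 + ε ^ 4 * τ)) ^ 2 - (ε * A) ^ 2 -
    (2 + ε * b) ^ 2 - ε * (ε * Y) = ε ^ 3 * (2 * (2 + ε * b) * (σ + ε * τ) +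
      ε * ((Qf ε A b Y + ε * (σ + ε * τ)) ^ 2 - (A ^ 2 + Y) * b ^ 2 / 4)) := by
  unfold Qf; ring

theorem rowcol {ε A b Y A' b' Z P σ σ' : ℝ} : (1 + ε * b + ε ^ 2 * Qf ε A b Y + ε ^ 3 * σ +
    (1 + ε * b' + ε ^ 2 * Qf ε A' b' Z + ε ^ 3 * σ')) ^ 2 - (ε * A - (2 + ε * A')) ^ 2 -
    (2 + ε * b - (2 + ε * b')) ^ 2 - (ε * (ε * Y) + ε * (ε * Z) - 2 * (ε * (ε * P))) =
    (ε * (b + b' - (A' - A)) + ε ^ 2 * (Qf ε A b Y + Qf ε A' b' Z + ε * (σ + σ'))) *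
      (4 + (ε * (b + b') + ε ^ 2 * (Qf ε A b Y + Qf ε A' b' Z + ε * (σ + σ'))) + ε * (A' - A)) -
      ε ^ 2 * ((b - b') ^ 2 + (Y + Z - 2 * P)) := by
  ring

/-- All balls are close to one of four unit balls, whose centres are the corners of a square of side `2`. -/
theorem small {m} (I : Inst N) (h : NF (m + 1) I) (δ : ℝ) (hδ : 0 < δ) : ∃ c : ℕ × Bool × N → ℝ × ℝ × Pt m,
    (∀ u ∈ vs I, |(c u).1 - 1| < δ ∧ |(c u).2.1 - (if u.1 = 0 ∨ u.1 = 2 then 0 else 2)| < δ ∧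
      |(c u).2.2.1 - (if u.1 < 2 then 2 else 0)| < δ ∧ (c u).2.2.2 ⬝ᵥ (c u).2.2.2 < δ) ∧
    ∀ u ∈ vs I, ∀ v ∈ vs I, u.1 ≤ v.1 → S (r I u v) (G4 (c u) (c v)) := by
  obtain ⟨α, β, y, z, h⟩ := h
  let σ : Bool → ℝ := fun s => if s then 1 else -1
  have hσ : ∀ s : Bool, S (s = true) (σ s) := fun s => by cases s <;> simp [σ]
  let c : ℝ → ℕ × Bool × N → ℝ × ℝ × Pt m := fun ε u =>
    if u.1 = 0 then
      (1 + ε * y u.2.2 0 + ε ^ 2 * Qf ε (-y u.2.2 0 + ε * (α u.2.2 / 2)) (y u.2.2 0)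
        (tl (y u.2.2) ⬝ᵥ tl (y u.2.2)) + ε ^ 3 * σ u.2.1,
        ε * (-y u.2.2 0 + ε * (α u.2.2 / 2)), 2 + ε * y u.2.2 0, ε • tl (y u.2.2))
    else if u.1 = 1 then
      (1 + ε * z u.2.2 0 + ε ^ 2 * Qf ε (z u.2.2 0 - ε * (β u.2.2 / 2)) (z u.2.2 0)
        (tl (z u.2.2) ⬝ᵥ tl (z u.2.2)) + ε ^ 3 * σ u.2.1,
        2 + ε * (z u.2.2 0 - ε * (β u.2.2 / 2)), 2 + ε * z u.2.2 0, ε • tl (z u.2.2))
    else if u.1 = 2 then (1 + ε ^ 4 * 0, 0, 0, 0)
    else if u.1 = 3 then (1 + ε ^ 4 * 1, 2, 0, 0) else (1 + ε ^ 4 * -1, 2, 0, 0)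
  have hv5 : ∀ u ∈ vs I, u.1 = 0 ∨ u.1 = 1 ∨ u.1 = 2 ∨ u.1 = 3 ∨ u.1 = 4 := fun ⟨t, s, i⟩ hu => by
    have := mem_vs.1 hu; omega
  have near : ∀ g : ℝ → ℝ, Continuous g → g 0 = 0 → ∀ᶠ ε in 𝓝[>] (0 : ℝ), |g ε| < δ := fun g a b => by
    have : ContinuousAt (fun ε => |g ε|) 0 := a.abs.continuousAt
    exact (this.eventually (gt_mem_nhds (by simpa [b] using hδ))).filter_mono nhdsWithin_le_nhds
  have e1 : ∀ᶠ ε in 𝓝[>] (0 : ℝ), ∀ u ∈ vs I, |(c ε u).1 - 1| < δ ∧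
      |(c ε u).2.1 - (if u.1 = 0 ∨ u.1 = 2 then 0 else 2)| < δ ∧
      |(c ε u).2.2.1 - (if u.1 < 2 then 2 else 0)| < δ ∧ (c ε u).2.2.2 ⬝ᵥ (c ε u).2.2.2 < δ := ev_all _ fun u hu => by
    have lt : ∀ g : ℝ → ℝ, Continuous g → g 0 = 0 → ∀ᶠ ε in 𝓝[>] (0 : ℝ), g ε < δ := fun g a b =>
      (near g a b).mono fun ε k => (le_abs_self _).trans_lt k
    obtain ⟨t, s, i⟩ := u
    rcases hv5 _ hu with k | k | k | k | k <;> simp only at k <;> subst k <;>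
      simp only [c, if_true, if_false, one_ne_zero, OfNat.ofNat_ne_zero, OfNat.ofNat_ne_one, Nat.reduceEqDiff,
        Nat.reduceLT, Nat.ofNat_pos, Nat.one_lt_ofNat, lt_self_iff_false, or_true, or_false, true_or, false_or, Qf, smul_dotProduct,
        dotProduct_smul, smul_eq_mul, dotProduct_zero, or_self] <;>
      refine (near _ ?_ ?_).and ((near _ ?_ ?_).and ((near _ ?_ ?_).and (lt _ ?_ ?_))) <;>
      first | fun_prop | simp
  have ev : ∀ᶠ ε in 𝓝[>] (0 : ℝ), ∀ u ∈ vs I, ∀ v ∈ vs I, u.1 ≤ v.1 → S (r I u v) (G4 (c ε u) (c ε v)) := by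
    have tg : ∀ (b : Prop) (f : ℝ → ℝ) (w Y τ : ℝ) (s : Bool), Continuous f → S b (σ s) → ∀ᶠ ε in 𝓝[>] (0 : ℝ),
        S b ((1 + ε * w + ε ^ 2 * Qf ε (f ε) w Y + ε ^ 3 * σ s + (1 + ε ^ 4 * τ)) ^ 2 - (ε * f ε) ^ 2 -
          (2 + ε * w) ^ 2 - ε * (ε * Y)) := fun b f w Y τ s hf hb => by
      simp only [tang]
      refine ev_S (g := fun ε => 2 * (2 + ε * w) * (σ s + ε * τ) + ε * ((Qf ε (f ε) w Y + ε * (σ s + ε * τ)) ^ 2 -
        ((f ε) ^ 2 + Y) * w ^ 2 / 4)) (by unfold Qf; fun_prop) ?_ 3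
      have := hb.mul (c := 4) (by norm_num)
      convert this using 1
      simp only [mul_zero, zero_mul, add_zero]; ring
    refine ev_all _ fun ⟨t, s, i⟩ hu => ev_all _ fun ⟨t', s', j⟩ hv => ?_
    by_cases q : t ≤ t'
    swap
    · exact .of_forall fun _ a => (q a).elim
    simp only [q, forall_true_left]
    rcases hv5 _ hu with k | k | k | k | k <;> simp only at k <;> subst k <;>
      rcases hv5 _ hv with k | k | k | k | k <;> simp only at k <;> subst k <;>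
      first | (exfalso; omega) | skip
    all_goals simp only [c, if_true, if_false, one_ne_zero, zero_ne_one, OfNat.ofNat_ne_zero, OfNat.ofNat_ne_one, r, G4, le_refl,
      Nat.reduceLeDiff, Nat.reduceMul, Nat.reduceAdd, Nat.reduceLT, Nat.reduceEqDiff, zero_le, lt_self_iff_false,
      decide_eq_true_eq, true_or, or_true, true_and, false_and, and_true, and_false, false_or, or_false, mul_zero, zero_add,
      smul_dotProduct, dotProduct_smul, smul_eq_mul, dotProduct_zero, zero_dotProduct, OfNat.zero_ne_ofNat, OfNat.one_ne_ofNat,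
      Nat.ofNat_pos, Nat.not_ofNat_le_one, nonpos_iff_eq_zero, Nat.one_lt_ofNat, Nat.add_one_ne_zero, zero_lt_one, Nat.lt_irrefl]
    · exact e0 _ _ (by unfold Qf; fun_prop) (by norm_num)
    · have k := h i ((mem_vs.1 hu).resolve_right (by omega)).2 j ((mem_vs.1 hv).resolve_left (by omega) |>.resolve_right (by omega)).2
      simp only [rowcol]
      refine (ev_S (b := (i, j) ∈ I.2.2) (g := fun t => ((α i + β j) / 2 + (Qf t (-y i 0 + t * (α i / 2)) (y i 0) (tl (y i) ⬝ᵥ tl (y i)) +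
        Qf t (z j 0 - t * (β j / 2)) (z j 0) (tl (z j) ⬝ᵥ tl (z j)) + t * (σ s + σ s'))) *
        (4 + (t * (y i 0 + z j 0) + t ^ 2 * (Qf t (-y i 0 + t * (α i / 2)) (y i 0) (tl (y i) ⬝ᵥ tl (y i)) +
        Qf t (z j 0 - t * (β j / 2)) (z j 0) (tl (z j) ⬝ᵥ tl (z j)) + t * (σ s + σ s'))) +
        t * ((z j 0 - t * (β j / 2)) - (-y i 0 + t * (α i / 2)))) - ((y i 0 - z j 0) ^ 2 +
        (tl (y i) ⬝ᵥ tl (y i) + tl (z j) ⬝ᵥ tl (z j) - 2 * tl (y i) ⬝ᵥ tl (z j)))) (by unfold Qf; fun_prop) ?_ 2).mono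
        fun t k => ?_
      · have e : y i ⬝ᵥ z j = y i 0 * z j 0 + tl (y i) ⬝ᵥ tl (z j) := by
          simp [dotProduct, Fin.sum_univ_succ, tl]
        convert k.mul two_pos using 1
        rw [e]
        simp only [Qf, mul_zero, zero_mul, add_zero, sub_zero, zero_div]
        ring
      · convert k using 1
        ring
    · convert tg (s = true) (fun t => -y i 0 + t * (α i / 2)) (y i 0) (tl (y i) ⬝ᵥ tl (y i)) 0 s (by fun_prop) (hσ s) using 3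
      ring
    · exact e0 _ _ (by unfold Qf; fun_prop) (by norm_num)
    · exact e0 _ _ (by unfold Qf; fun_prop) (by norm_num)
    · exact e0 _ _ (by unfold Qf; fun_prop) (by norm_num)
    · exact e0 _ _ (by unfold Qf; fun_prop) (by norm_num)
    · convert tg (s = true) (fun t => z i 0 - t * (β i / 2)) (z i 0) (tl (z i) ⬝ᵥ tl (z i)) 1 s (by fun_prop) (hσ s) using 3
      ring
    · convert tg (s = true) (fun t => z i 0 - t * (β i / 2)) (z i 0) (tl (z i) ⬝ᵥ tl (z i)) (-1) s (by fun_prop) (hσ s) using 3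
      ring
    · exact e0 _ _ (by fun_prop) (by norm_num)
    · exact (ev_S (b := True) (g := fun t => 4 + t ^ 4) (by fun_prop) (by norm_num) 4).mono fun t k => by
        convert k using 1; ring
    · exact (ev_S (b := False) (g := fun t => -4 + t ^ 4) (by fun_prop) (by norm_num) 4).mono fun t k => by
        convert k using 1; ring
    · exact e0 _ _ (by fun_prop) (by norm_num)
    · exact e0 _ _ (by fun_prop) (by norm_num)
    · exact e0 _ _ (by fun_prop) (by norm_num)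
  obtain ⟨ε, a, b⟩ := (e1.and ev).exists
  exact ⟨c ε, a, b⟩

theorem inter {d} (x y : EuclideanSpace ℝ (Fin d)) {r s : ℝ} (a : 0 < r) (b : 0 < s) :
    (Metric.closedBall x r ∩ Metric.closedBall y s).Nonempty ↔ 0 ≤ G (r, x.ofLp) (s, y.ofLp) := by
  have e : dist x y ^ 2 = x.ofLp ⬝ᵥ x.ofLp + y.ofLp ⬝ᵥ y.ofLp - 2 * x.ofLp ⬝ᵥ y.ofLp := by
    simp only [EuclideanSpace.dist_sq_eq, dotProduct, Finset.mul_sum, ← Finset.sum_add_distrib, ← Finset.sum_sub_distrib,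
      Real.dist_eq, sq_abs]
    exact Finset.sum_congr rfl fun _ _ => by ring
  rw [← Set.not_disjoint_iff_nonempty_inter, disjoint_closedBall_closedBall_iff a.le b.le, not_lt,
    ← sq_le_sq₀ dist_nonneg (add_pos a b).le, e, G, sub_nonneg]

end Pool.Agent.KS6_60.BL
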