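import Pool.Agent.KS6_60.BL.A
import Pool.Agent.KS6_60.UB.Memb

/-! Ball graphs with restricted radii in Euclidean and hyperbolic spaces. -/

namespace Pool.Agent.KS6_60.BL

open Pool.Agent.KS6_60.Lib.CX Pool.Agent.KS6_60.Lib.ER Pool.Agent.KS6_60.Lib.SG Pool.Agent.KS6_60.UB Filter Topology Module

set_option synthInstance.maxSize 4000

/-- `a` is the intersection graph of closed balls in Euclidean `d`-space with radii in `R` -/
def BallE (d : ℕ) (R : Set ℝ) (a : Gr) : Prop :=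
  ∃ (c : Fin a.n → EuclideanSpace ℝ (Fin d)) (r : Fin a.n → ℝ), (∀ v, 0 < r v ∧ r v ∈ R) ∧ ∀ u v, u ≠ v →
    (a.G.Adj u v ↔ (Metric.closedBall (c u) (r u) ∩ Metric.closedBall (c v) (r v)).Nonempty)

/-- the closed ball of hyperbolic space -/
def hball {d : ℕ} (x : Hyp d) (r : ℝ) : Set (Hyp d) := {y | hdist x y ≤ r}

/-- `a` is the intersection graph of closed balls in hyperbolic `d`-space with radii in `R` -/
def BallH (d : ℕ) (R : Set ℝ) (a : Gr) : Prop :=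
  ∃ (c : Fin a.n → Hyp d) (r : Fin a.n → ℝ), (∀ v, 0 < r v ∧ r v ∈ R) ∧ ∀ u v, u ≠ v →
    (a.G.Adj u v ↔ (hball (c u) (r u) ∩ hball (c v) (r v)).Nonempty)

theorem ballE_iff {d : ℕ} {R : Set ℝ} (a : Gr) : BallE d R a ↔ Rep (fun x : Pt d => 0 < x.1 ∧ x.1 ∈ R) (fun x y => 0 ≤ G x y) a :=
  ⟨fun ⟨c, r, h, q⟩ => ⟨fun u => (r u, (c u).ofLp), h, fun u v t => (q u v t).trans (inter _ _ (h u).1 (h v).1)⟩,
    fun ⟨c, h, q⟩ => ⟨fun u => WithLp.toLp 2 (c u).2, fun u => (c u).1, h, fun u v t =>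
      (q u v t).trans (inter (WithLp.toLp 2 (c u).2) (WithLp.toLp 2 (c v).2) (h u).1 (h v).1).symm⟩⟩

variable {N : Type} [DecidableEq N] [Inhabited N]

theorem small' {m} (I : Inst N) (h : NF (m + 1) I) {P : ℝ × ℝ → Prop} (hP : ∀ᶠ p in 𝓝 ((2 : ℝ), (1 : ℝ)), P p) :
    ∃ c : ℕ × Bool × N → Pt (m + 2), (∀ u ∈ vs I, P ((c u).2 ⬝ᵥ (c u).2, (c u).1)) ∧
      ∀ u ∈ vs I, ∀ v ∈ vs I, u.1 ≤ v.1 → S (BL.r I u v) (G (c u) (c v)) := by
  have key : ∀ (a0 b0 : ℝ), (a0 - 1) ^ 2 + (b0 - 1) ^ 2 = 2 → ∀ᶠ δ in 𝓝[>] (0 : ℝ), ∀ ρ a b n : ℝ, |ρ - 1| < δ → |a - a0| < δ →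
      |b - b0| < δ → 0 ≤ n → n < δ → P ((a - 1) ^ 2 + (b - 1) ^ 2 + n, ρ) := fun a0 b0 e => by
    have hc : ContinuousAt (fun q : ℝ × ℝ × ℝ × ℝ => ((q.2.1 - 1) ^ 2 + (q.2.2.1 - 1) ^ 2 + q.2.2.2, q.1)) (1, a0, b0, 0) := by
      fun_prop
    have h1 := hc.eventually (p := P) (by simpa [e] using hP)
    obtain ⟨δ, d0, hd⟩ := Metric.eventually_nhds_iff.1 h1
    filter_upwards [Ioo_mem_nhdsGT d0] with δ' hδ' ρ a b n k1 k2 k3 k4 k5
    refine hd (y := (ρ, a, b, n)) ?_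
    simp only [Prod.dist_eq, Real.dist_eq, max_lt_iff]
    refine ⟨k1.trans hδ'.2, k2.trans hδ'.2, k3.trans hδ'.2, ?_⟩
    rw [sub_zero, abs_of_nonneg k4]
    exact k5.trans hδ'.2
  obtain ⟨δ, ⟨k1, k2, k3, k4⟩, (hδ : 0 < δ)⟩ := (((key 0 0 (by norm_num)).and ((key 0 2 (by norm_num)).and
    ((key 2 0 (by norm_num)).and (key 2 2 (by norm_num))))).and self_mem_nhdsWithin).exists
  obtain ⟨c, h1, h2⟩ := small I h δ hδ
  refine ⟨fun u => ((c u).1, Fin.cons ((c u).2.1 - 1) (Fin.cons ((c u).2.2.1 - 1) (c u).2.2.2)), fun u hu => ?_,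
    fun u hu v hv q => ?_⟩
  · obtain ⟨l1, l2, l3, l4⟩ := h1 u hu
    have l5 : 0 ≤ (c u).2.2.2 ⬝ᵥ (c u).2.2.2 := Finset.sum_nonneg fun _ _ => mul_self_nonneg _
    have e : (Fin.cons ((c u).2.1 - 1) (Fin.cons ((c u).2.2.1 - 1) (c u).2.2.2) : Fin (m + 2) → ℝ) ⬝ᵥ
        (Fin.cons ((c u).2.1 - 1) (Fin.cons ((c u).2.2.1 - 1) (c u).2.2.2) : Fin (m + 2) → ℝ) =
        ((c u).2.1 - 1) ^ 2 + ((c u).2.2.1 - 1) ^ 2 + (c u).2.2.2 ⬝ᵥ (c u).2.2.2 := by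
      simp [dotProduct, Fin.sum_univ_succ]; ring
    show P (_, (c u).1)
    rw [e]
    split_ifs at l2 l3
    · exact k2 _ _ _ _ l1 l2 l3 l5 l4
    · exact k1 _ _ _ _ l1 l2 l3 l5 l4
    · exact k4 _ _ _ _ l1 l2 l3 l5 l4
    · exact k3 _ _ _ _ l1 l2 l3 l5 l4
  · convert h2 u hu v hv q using 1
    simp only [G, G4, dotProduct, Fin.sum_univ_succ (n := m + 1), Fin.sum_univ_succ (n := m), Fin.cons_zero, Fin.cons_succ]
    ring

theorem ballE_of {m} {R : Set ℝ} {r0 : ℝ} (h0 : 0 < r0) (hR : R ∈ 𝓝 r0) (I : Inst N) (h : NF (m + 1) I) :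
    BallE (m + 2) R (gr (vs I) (BL.r I)) := by
  obtain ⟨c, h1, h2⟩ := small' I h (P := fun p => 0 < r0 * p.2 ∧ r0 * p.2 ∈ R) (by
    have hc : ContinuousAt (fun q : ℝ × ℝ => r0 * q.2) (2, 1) := by fun_prop
    have h1 := hc.eventually (p := fun x => 0 < x) (by simpa using lt_mem_nhds h0)
    have h2 := hc.eventually (p := fun x => x ∈ R) (by simpa using hR)
    exact h1.and h2)
  refine (ballE_iff _).2 ((rep_gr (fun u v h => by simp [BL.r, h]) fun x y h => G_comm x y ▸ h).2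
    ⟨fun u => (r0 * (c u).1, r0 • (c u).2), h1, fun u hu v hv q _ => ?_⟩)
  have k := h2 u hu v hv q
  have e : G (r0 * (c u).1, r0 • (c u).2) (r0 * (c v).1, r0 • (c v).2) = r0 ^ 2 * G (c u) (c v) := by
    simp [G]; ring
  rw [e, k.iff, mul_nonneg_iff_of_pos_left (by positivity), lt_iff_le_and_ne, and_iff_left (Ne.symm (S.ne k))]

theorem sound_E {d} {R : Set ℝ} (I : Inst N) (h : BallE d R (gr (vs I) (BL.r I))) : SR (d + 1) I := by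
  refine BL.sound I ?_
  obtain ⟨c, h1, h2⟩ := (ballE_iff _).1 h
  exact ⟨c, fun u => (h1 u).1, h2⟩

end Pool.Agent.KS6_60.BL
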