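import Pool.Agent.KS6_60.BL.B

/-! Hyperbolic balls are Euclidean balls in the Poincaré model. -/

namespace Pool.Agent.KS6_60.BL

open Pool.Agent.KS6_60.Lib.CX Pool.Agent.KS6_60.Lib.ER Pool.Agent.KS6_60.Lib.SG Pool.Agent.KS6_60.UB Filter Topology Module

set_option synthInstance.maxSize 4000

section hyp
variable {d : ℕ}

/-- the inverse of the Poincaré projection -/
noncomputable def Phi (y : Fin d → ℝ) (hy : y ⬝ᵥ y < 1) : Hyp d :=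
  ⟨((1 + y ⬝ᵥ y) / (1 - y ⬝ᵥ y), (2 / (1 - y ⬝ᵥ y)) • y), by
    have p : 0 ≤ y ⬝ᵥ y := Finset.sum_nonneg fun _ _ => mul_self_nonneg _
    have q : 0 < 1 - y ⬝ᵥ y := by linarith
    have e : ∑ i, ((2 / (1 - y ⬝ᵥ y)) • y) i * ((2 / (1 - y ⬝ᵥ y)) • y) i = (2 / (1 - y ⬝ᵥ y)) ^ 2 * (y ⬝ᵥ y) := by
      rw [dotProduct, Finset.mul_sum]
      exact Finset.sum_congr rfl fun i _ => by simp; ring
    refine ⟨?_, by positivity⟩
    simp only [mink, e]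
    field_simp
    ring⟩

theorem hyp_sq (x : Hyp d) : x.1.1 * x.1.1 = 1 + x.1.2 ⬝ᵥ x.1.2 := by
  have := x.2.1
  simp only [mink] at this
  simp only [dotProduct]
  linarith

theorem Phi_surj (p : Hyp d) : ∃ y hy, Phi y hy = p := by
  have h1 := hyp_sq p
  have h2 := p.2.2
  have n : ((1 + p.1.1)⁻¹ • p.1.2) ⬝ᵥ ((1 + p.1.1)⁻¹ • p.1.2) = (p.1.1 - 1) / (p.1.1 + 1) := by
    simp only [smul_dotProduct, dotProduct_smul, smul_eq_mul]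
    rw [show p.1.2 ⬝ᵥ p.1.2 = p.1.1 * p.1.1 - 1 by linarith]
    field_simp
    ring
  have hy : ((1 + p.1.1)⁻¹ • p.1.2) ⬝ᵥ ((1 + p.1.1)⁻¹ • p.1.2) < 1 := by
    rw [n, div_lt_one (by linarith)]; linarith
  refine ⟨_, hy, Subtype.ext (Prod.ext ?_ ?_)⟩
  · simp only [Phi, n]
    field_simp
    ring
  · simp only [Phi, n, smul_smul]
    have : 2 / (1 - (p.1.1 - 1) / (p.1.1 + 1)) * (1 + p.1.1)⁻¹ = 1 := by field_simp; ring
    rw [this, one_smul]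

/-- the Euclidean centre of a hyperbolic ball in the Poincaré model -/
noncomputable def cE (x : Hyp d) (ρ : ℝ) : Fin d → ℝ := (x.1.1 + Real.cosh ρ)⁻¹ • x.1.2

/-- the Euclidean radius of a hyperbolic ball in the Poincaré model -/
noncomputable def rE (x : Hyp d) (ρ : ℝ) : ℝ := Real.sinh ρ / (x.1.1 + Real.cosh ρ)

theorem rE_pos (x : Hyp d) {ρ : ℝ} (h : 0 < ρ) : 0 < rE x ρ :=
  div_pos (Real.sinh_pos_iff.2 h) (by linarith [x.2.2, Real.cosh_pos ρ])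

theorem dist_toLp (x y : Fin d → ℝ) : dist (WithLp.toLp 2 x : EuclideanSpace ℝ (Fin d)) (WithLp.toLp 2 y) ^ 2 =
    x ⬝ᵥ x + y ⬝ᵥ y - 2 * x ⬝ᵥ y := by
  simp only [EuclideanSpace.dist_sq_eq, dotProduct, Finset.mul_sum, ← Finset.sum_add_distrib, ← Finset.sum_sub_distrib,
    Real.dist_eq, sq_abs]
  exact Finset.sum_congr rfl fun _ _ => by ring

theorem mem_hball (x : Hyp d) {ρ : ℝ} (h : 0 < ρ) (y : Fin d → ℝ) (hy : y ⬝ᵥ y < 1) :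
    Phi y hy ∈ hball x ρ ↔ (WithLp.toLp 2 y : EuclideanSpace ℝ (Fin d)) ∈ Metric.closedBall (WithLp.toLp 2 (cE x ρ)) (rE x ρ) := by
  have hx := hyp_sq x
  have x0 := x.2.2
  have C0 := Real.cosh_pos ρ
  have k : hdist x (Phi y hy) ≤ ρ ↔ UB.mk x.1 (Phi y hy).1 ≤ Real.cosh ρ := by
    have e : mink x.1 (Phi y hy).1 = UB.mk x.1 (Phi y hy).1 := rfl
    rw [← e, ← Real.arcosh_le_arcosh (mink_pos x _) C0, Real.arcosh_cosh h.le, hdist]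
  have q : 0 < 1 - y ⬝ᵥ y := by linarith
  rw [Metric.mem_closedBall, ← sq_le_sq₀ dist_nonneg (rE_pos x h).le, dist_toLp]
  show hdist x (Phi y hy) ≤ ρ ↔ _
  rw [k]
  clear k
  simp only [UB.mk, Phi, cE, rE, smul_dotProduct, dotProduct_smul, smul_eq_mul]
  rw [dotProduct_comm y x.1.2]
  have hs : Real.sinh ρ ^ 2 = Real.cosh ρ ^ 2 - 1 := Real.sinh_sq ρ
  generalize y ⬝ᵥ y = n, x.1.2 ⬝ᵥ y = p, x.1.2 ⬝ᵥ x.1.2 = w, x.1.1 = X, Real.cosh ρ = C at *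
  obtain rfl : w = X * X - 1 := by linarith
  rw [div_pow, hs, ← sub_nonneg, ← sub_nonneg (b := n + _ - _), ← mul_nonneg_iff_of_pos_left q,
    ← mul_nonneg_iff_of_pos_left (show 0 < X + C by linarith) (b := (C ^ 2 - 1) / _ - _)]
  refine iff_of_eq (congrArg _ ?_)
  field_simp
  ring

theorem unit_of_mem (x : Hyp d) {ρ : ℝ} (h : 0 < ρ) (y : Fin d → ℝ)
    (hy : (WithLp.toLp 2 y : EuclideanSpace ℝ (Fin d)) ∈ Metric.closedBall (WithLp.toLp 2 (cE x ρ)) (rE x ρ)) : y ⬝ᵥ y < 1 := by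
  have hx := hyp_sq x
  have x0 := x.2.2
  have C0 := Real.cosh_pos ρ
  have n2 : ∀ v : Fin d → ℝ, ‖(WithLp.toLp 2 v : EuclideanSpace ℝ (Fin d))‖ ^ 2 = v ⬝ᵥ v := fun v => by
    rw [EuclideanSpace.norm_sq_eq]
    exact Finset.sum_congr rfl fun _ _ => by simp [sq]
  have h1 : ‖(WithLp.toLp 2 (x.1.2) : EuclideanSpace ℝ (Fin d))‖ < x.1.1 := by
    refine lt_of_pow_lt_pow_left₀ 2 x0.le ?_
    rw [n2]; linarith [hx, sq x.1.1]
  have h2 : ‖(WithLp.toLp 2 (cE x ρ) : EuclideanSpace ℝ (Fin d))‖ =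
      ‖(WithLp.toLp 2 (x.1.2) : EuclideanSpace ℝ (Fin d))‖ / (x.1.1 + Real.cosh ρ) := by
    rw [cE, WithLp.toLp_smul, norm_smul, Real.norm_of_nonneg (by positivity), div_eq_inv_mul]
  have h3 : ‖(WithLp.toLp 2 y : EuclideanSpace ℝ (Fin d))‖ < 1 := by
    rw [Metric.mem_closedBall, dist_eq_norm] at hy
    have t := norm_le_norm_add_norm_sub' (WithLp.toLp 2 y : EuclideanSpace ℝ (Fin d)) (WithLp.toLp 2 (cE x ρ))
    have : ‖(WithLp.toLp 2 (x.1.2) : EuclideanSpace ℝ (Fin d))‖ / (x.1.1 + Real.cosh ρ) + rE x ρ < 1 := by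
      rw [rE, ← add_div, div_lt_one (by linarith)]
      linarith [Real.sinh_lt_cosh ρ]
    linarith
  rw [← n2]
  exact pow_lt_one₀ (norm_nonneg _) h3 two_ne_zero

theorem hyp_inter (x x' : Hyp d) {ρ ρ' : ℝ} (h : 0 < ρ) (h' : 0 < ρ') : (hball x ρ ∩ hball x' ρ').Nonempty ↔
    0 ≤ G (rE x ρ, cE x ρ) (rE x' ρ', cE x' ρ') := by
  rw [← inter (WithLp.toLp 2 (cE x ρ)) (WithLp.toLp 2 (cE x' ρ')) (rE_pos x h) (rE_pos x' h')]
  constructor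
  · rintro ⟨p, h1, h2⟩
    obtain ⟨y, hy, rfl⟩ := Phi_surj p
    exact ⟨WithLp.toLp 2 y, (mem_hball x h y hy).1 h1, (mem_hball x' h' y hy).1 h2⟩
  · rintro ⟨y, h1, h2⟩
    have hy := unit_of_mem x h y.ofLp h1
    exact ⟨Phi y.ofLp hy, (mem_hball x h _ hy).2 h1, (mem_hball x' h' _ hy).2 h2⟩

theorem ballH_iff {R : Set ℝ} (a : Gr) : BallH d R a ↔ ∃ (c : Fin a.n → Hyp d) (r : Fin a.n → ℝ), (∀ v, 0 < r v ∧ r v ∈ R) ∧
    ∀ u v, u ≠ v → (a.G.Adj u v ↔ 0 ≤ G (rE (c u) (r u), cE (c u) (r u)) (rE (c v) (r v), cE (c v) (r v))) := by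
  constructor <;> rintro ⟨c, r, h, q⟩ <;> refine ⟨c, r, h, fun u v t => ?_⟩
  · rw [q u v t, hyp_inter _ _ (h u).1 (h v).1]
  · rw [q u v t, hyp_inter _ _ (h u).1 (h v).1]

theorem BallH.toE {R : Set ℝ} {a : Gr} (h : BallH d R a) : BallE d Set.univ a := by
  obtain ⟨c, r, h, q⟩ := (ballH_iff a).1 h
  exact (ballE_iff a).2 ⟨fun u => (rE (c u) (r u), cE (c u) (r u)), fun u => ⟨rE_pos _ (h u).1, trivial⟩, q⟩

/-- Euclidean balls as hyperbolic balls -/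
theorem ofE (c : Fin d → ℝ) (r : ℝ) (hr : 0 < r) (h1 : 0 < 1 + c ⬝ᵥ c - r ^ 2) (h2 : 0 < 1 - c ⬝ᵥ c + r ^ 2)
    (h3 : 0 < ((1 + c ⬝ᵥ c - r ^ 2) / 2) ^ 2 - c ⬝ᵥ c) : ∃ x : Hyp d,
      cE x (Real.arsinh (r / √(((1 + c ⬝ᵥ c - r ^ 2) / 2) ^ 2 - c ⬝ᵥ c))) = c ∧
      rE x (Real.arsinh (r / √(((1 + c ⬝ᵥ c - r ^ 2) / 2) ^ 2 - c ⬝ᵥ c))) = r := by
  obtain ⟨E, hE⟩ : ∃ E, E = √(((1 + c ⬝ᵥ c - r ^ 2) / 2) ^ 2 - c ⬝ᵥ c) := ⟨_, rfl⟩
  have E0 : 0 < E := hE ▸ Real.sqrt_pos.2 h3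
  have E2 : E ^ 2 = ((1 + c ⬝ᵥ c - r ^ 2) / 2) ^ 2 - c ⬝ᵥ c := by rw [hE, Real.sq_sqrt h3.le]
  rw [← hE]
  have hc : Real.cosh (Real.arsinh (r / E)) = (1 - c ⬝ᵥ c + r ^ 2) / (2 * E) := by
    rw [Real.cosh_arsinh, Real.sqrt_eq_iff_mul_self_eq (by positivity) (by positivity)]
    field_simp
    rw [E2]
    ring
  refine ⟨⟨((1 + c ⬝ᵥ c - r ^ 2) / (2 * E), E⁻¹ • c), ?_, by positivity⟩, ?_, ?_⟩
  · have e : ∑ i, (E⁻¹ • c) i * (E⁻¹ • c) i = (E ^ 2)⁻¹ * (c ⬝ᵥ c) := by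
      rw [dotProduct, Finset.mul_sum]
      exact Finset.sum_congr rfl fun i _ => by simp; ring
    simp only [mink, e]
    have : (1 + c ⬝ᵥ c - r ^ 2) / (2 * E) * ((1 + c ⬝ᵥ c - r ^ 2) / (2 * E)) =
      (E ^ 2)⁻¹ * ((1 + c ⬝ᵥ c - r ^ 2) / 2) ^ 2 := by field_simp
    rw [this, ← mul_sub, ← E2, inv_mul_cancel₀ (by positivity)]
  · simp only [cE, hc]
    rw [smul_smul, show ((1 + c ⬝ᵥ c - r ^ 2) / (2 * E) + (1 - c ⬝ᵥ c + r ^ 2) / (2 * E))⁻¹ * E⁻¹ = 1 by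
      field_simp; ring, one_smul]
  · simp only [rE, hc, Real.sinh_arsinh]
    field_simp
    ring

end hyp

variable {N : Type} [DecidableEq N] [Inhabited N]

theorem ballH_of {m} {R : Set ℝ} {ρ : ℝ} (h0 : 0 < ρ) (hR : R ∈ 𝓝 ρ) (I : Inst N) (h : NF (m + 1) I) :
    BallH (m + 2) R (gr (vs I) (BL.r I)) := by
  have s0 : 0 < Real.sinh ρ := Real.sinh_pos_iff.2 h0
  obtain ⟨s, hs⟩ : ∃ s, s = Real.sinh ρ := ⟨_, rfl⟩
  rw [← hs] at s0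
  obtain ⟨K, hK⟩ : ∃ K, K = 3 + 2 / s ^ 2 := ⟨_, rfl⟩
  have K3 : 3 < K := by rw [hK]; have : 0 < 2 / s ^ 2 := by positivity
                        linarith
  obtain ⟨L, hL⟩ : ∃ L, L = K - √(K ^ 2 - 1) := ⟨_, rfl⟩
  have sq1 : √(K ^ 2 - 1) ^ 2 = K ^ 2 - 1 := Real.sq_sqrt (by nlinarith)
  have sq0 := Real.sqrt_nonneg (K ^ 2 - 1)
  have L1 : L ^ 2 + 1 = 2 * K * L := by rw [hL]; linear_combination sq1
  have L0 : 0 < L := by
    have : √(K ^ 2 - 1) < K := by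
      rw [Real.sqrt_lt' (by linarith)]; linarith
    linarith
  have Llt : L < 1 := by
    have : K - 1 < √(K ^ 2 - 1) := by
      rw [Real.lt_sqrt (by linarith)]; nlinarith
    linarith
  obtain ⟨l, l0, hl⟩ : ∃ l : ℝ, 0 < l ∧ l ^ 2 = L := ⟨√L, Real.sqrt_pos.2 L0, Real.sq_sqrt L0.le⟩
  have eE : ((1 + L * 2 - (l * 1) ^ 2) / 2) ^ 2 - L * 2 = L / s ^ 2 := by
    rw [mul_one, hl]
    have : 1 + L ^ 2 = 2 * (3 + 2 / s ^ 2) * L := by rw [← hK]; linarith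
    field_simp at this ⊢
    linear_combination this
  have hP : ∀ᶠ p in 𝓝 ((2 : ℝ), (1 : ℝ)), 0 < 1 + L * p.1 - (l * p.2) ^ 2 ∧ 0 < 1 - L * p.1 + (l * p.2) ^ 2 ∧
      0 < ((1 + L * p.1 - (l * p.2) ^ 2) / 2) ^ 2 - L * p.1 ∧ 0 < l * p.2 ∧
      Real.arsinh (l * p.2 / √(((1 + L * p.1 - (l * p.2) ^ 2) / 2) ^ 2 - L * p.1)) ∈ R := by
    have ps : ∀ f : ℝ × ℝ → ℝ, Continuous f → 0 < f (2, 1) → ∀ᶠ p in 𝓝 ((2 : ℝ), (1 : ℝ)), 0 < f p := fun f a b =>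
      a.continuousAt.eventually (lt_mem_nhds b)
    refine (ps _ (by fun_prop) ?_).and ((ps _ (by fun_prop) ?_).and ((ps _ (by fun_prop) ?_).and ((ps _ (by fun_prop) ?_).and ?_)))
    · simp only [mul_one, hl]; linarith
    · simp only [mul_one, hl]; linarith
    · simp only [eE]; positivity
    · simpa using l0
    · have hc : ContinuousAt (fun p : ℝ × ℝ => Real.arsinh (l * p.2 /
          √(((1 + L * p.1 - (l * p.2) ^ 2) / 2) ^ 2 - L * p.1))) (2, 1) := by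
        refine Real.continuous_arsinh.continuousAt.comp (ContinuousAt.div (by fun_prop) (by fun_prop) ?_)
        simp only [eE]
        exact (Real.sqrt_pos.2 (by positivity)).ne'
      refine hc.eventually (p := fun x => x ∈ R) ?_
      have : Real.arsinh (l * 1 / √(((1 + L * 2 - (l * 1) ^ 2) / 2) ^ 2 - L * 2)) = ρ := by
        rw [eE, Real.sqrt_div' _ (by positivity), Real.sqrt_sq s0.le, ← hl, Real.sqrt_sq l0.le]
        rw [show l * 1 / (l / s) = s by field_simp, hs, Real.arsinh_sinh]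
      simp only [this]
      exact hR
  obtain ⟨c, h1, h2⟩ := small' I h hP
  have h1' : ∀ u ∈ vs I, ∃ (x : Hyp (m + 2)) (q : ℝ), 0 < q ∧ q ∈ R ∧ cE x q = l • (c u).2 ∧ rE x q = l * (c u).1 := fun u hu => by
    obtain ⟨k1, k2, k3, k4, k5⟩ := h1 u hu
    have e : (l • (c u).2) ⬝ᵥ (l • (c u).2) = L * ((c u).2 ⬝ᵥ (c u).2) := by
      simp only [smul_dotProduct, dotProduct_smul, smul_eq_mul, ← hl]; ring
    obtain ⟨x, a, b⟩ := ofE (l • (c u).2) (l * (c u).1) k4 (by rw [e]; exact k1) (by rw [e]; exact k2) (by rw [e]; exact k3)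
    exact ⟨x, _, Real.arsinh_pos_iff.2 (div_pos k4 (Real.sqrt_pos.2 (by rw [e]; exact k3))), by rw [e]; exact k5, a, b⟩
  choose x q f1 f2 f3 f4 using h1'
  let x' : ℕ × Bool × N → Hyp (m + 2) × ℝ := fun u => if hu : u ∈ vs I then (x u hu, q u hu) else
    (Phi 0 (by simp), 1)
  have rep := (rep_gr (X := Pt (m + 2)) (vs := vs I) (r := BL.r I) (P := fun p => ∃ y : Hyp (m + 2) × ℝ, 0 < y.2 ∧ y.2 ∈ R ∧
    p = (rE y.1 y.2, cE y.1 y.2)) (R := fun x y => 0 ≤ G x y) (fun u v h => by simp [BL.r, h])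
    fun x y h => G_comm x y ▸ h).2 ⟨fun u => (l * (c u).1, l • (c u).2), fun u hu => ⟨(x u hu, q u hu), f1 u hu, f2 u hu,
      by simp only; rw [f3, f4]⟩, fun u hu v hv k _ => ?_⟩
  · obtain ⟨g, g1, g2⟩ := rep
    choose y y1 y2 y3 using g1
    exact (ballH_iff _).2 ⟨fun u => (y u).1, fun u => (y u).2, fun u => ⟨y1 u, y2 u⟩, fun u v t => by
      rw [g2 u v t, y3 u, y3 v]⟩
  · have kk := h2 u hu v hv k
    have e : G (l * (c u).1, l • (c u).2) (l * (c v).1, l • (c v).2) = l ^ 2 * G (c u) (c v) := by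
      simp [G]; ring
    rw [e, kk.iff, mul_nonneg_iff_of_pos_left (by positivity), lt_iff_le_and_ne, and_iff_left (Ne.symm (S.ne kk))]

end Pool.Agent.KS6_60.BL
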