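import Pool.Agent.KS6_60.BL.C

/-! Membership in `∃ℝ` of ball graph recognition with restricted radii. -/

namespace Pool.Agent.KS6_60.BL

open Pool.Agent.KS6_60.Lib.CX Pool.Agent.KS6_60.Lib.ER Pool.Agent.KS6_60.Lib.SG Pool.Agent.KS6_60.UB Filter Topology Module

set_option synthInstance.maxSize 4000

/-- replace all variables by the variable `k` -/
def zk (k : ℕ) : Tm → Tm
  | .var _ => .var k
  | .num c => .num c
  | .add s t => .add (zk k s) (zk k t)
  | .mul s t => .mul (zk k s) (zk k t)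

theorem zk_eval (k : ℕ) (x : ℕ → ℝ) (s : Tm) : (zk k s).eval x = s.eval fun _ => x k := by
  induction s with
  | var i => rfl
  | num c => rfl
  | add s t h1 h2 => simp only [zk, Tm.eval, h1, h2]
  | mul s t h1 h2 => simp only [zk, Tm.eval, h1, h2]

/-- replace all variables by the variable `k` -/
def yk (k : ℕ) : Fm → Fm
  | .eq s t => .eq (zk k s) (zk k t)
  | .lt s t => .lt (zk k s) (zk k t)
  | .le s t => .le (zk k s) (zk k t)
  | .not f => .not (yk k f)
  | .and f g => .and (yk k f) (yk k g)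
  | .or f g => .or (yk k f) (yk k g)

theorem yk_holds (k : ℕ) (x : ℕ → ℝ) (f : Fm) : (yk k f).Holds x ↔ f.Holds fun _ => x k := by
  induction f with
  | eq s t => simp only [yk, Fm.Holds, zk_eval]
  | lt s t => simp only [yk, Fm.Holds, zk_eval]
  | le s t => simp only [yk, Fm.Holds, zk_eval]
  | not f h => simp only [yk, Fm.Holds, h]
  | and f g h1 h2 => simp only [yk, Fm.Holds, h1, h2]
  | or f g h1 h2 => simp only [yk, Fm.Holds, h1, h2]

section
variable {α : Type} [Enc α]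

theorem pt_or {f g : α → Fm} (h : PT f) (h' : PT g) : PT fun a => Fm.or (f a) (g a) :=
  pt_ofF ((PT.const _).cons ((pt_ff h).append (pt_ff h')))

theorem pt_zk {i : α → ℕ} (h : PT i) (s : Tm) : PT fun a => zk (i a) s := by
  induction s with
  | var _ => exact pt_var h
  | num c => exact PT.const _
  | add s t h1 h2 => exact pt_add h1 h2
  | mul s t h1 h2 => exact pt_mul h1 h2

theorem pt_yk {i : α → ℕ} (h : PT i) (f : Fm) : PT fun a => yk (i a) f := by
  induction f with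
  | eq s t => exact pt_eq (pt_zk h s) (pt_zk h t)
  | lt s t => exact pt_lt (pt_zk h s) (pt_zk h t)
  | le s t => exact pt_le (pt_zk h s) (pt_zk h t)
  | not f h1 => exact pt_not h1
  | and f g h1 h2 => exact pt_and h1 h2
  | or f g h1 h2 => exact pt_or h1 h2

end

theorem memb_E (d : ℕ) (χ : Fm) : Red (BallE d {r | χ.Holds fun _ => r}) ETR := by
  have := rep_memb (d := d) (Q := fun _ => True) (P := fun x : Pt d => 0 < x.1 ∧ χ.Holds fun _ => x.1)
    (R := fun _ x y => 0 ≤ G x y)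
    (χ := .eq (.num 0) (.num 0)) (ψ := fun u => .and (.lt (.num 0) (.var (1 + (d + 1) * u))) (yk (1 + (d + 1) * u) χ))
    (φ := fun e => .le (.add (dt (2 + (d + 1) * e.1) (2 + (d + 1) * e.1) d) (dt (2 + (d + 1) * e.2) (2 + (d + 1) * e.2) d))
      (.add (.mul (.add (.var (1 + (d + 1) * e.1)) (.var (1 + (d + 1) * e.2)))
        (.add (.var (1 + (d + 1) * e.1)) (.var (1 + (d + 1) * e.2))))
      (.mul (.num 2) (dt (2 + (d + 1) * e.1) (2 + (d + 1) * e.2) d))))
    (pt_and (by fun_prop) (pt_yk (by fun_prop) χ))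
    (pt_le (pt_add (pt_dt (by fun_prop) (by fun_prop) d) (pt_dt (by fun_prop) (by fun_prop) d))
      (pt_add (by fun_prop) (pt_mul (PT.const _) (pt_dt (by fun_prop) (by fun_prop) d))))
    (fun x => by simp [Fm.Holds])
    (fun x u => by simp only [Fm.Holds, yk_holds, Tm.eval, Int.cast_zero, pt])
    (fun x u v => by simp [Fm.Holds, Tm.eval, dt_eval, G, pt, sq])
  simp only [true_and, exists_const] at this
  exact UB.Red.of_iff this fun a => ballE_iff a

theorem G_hyp {d : ℕ} (x y : Hyp d) (ρ σ : ℝ) : (x.1.1 + Real.cosh ρ) * (y.1.1 + Real.cosh σ) *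
    G (rE x ρ, cE x ρ) (rE y σ, cE y σ) = 2 * (Real.cosh ρ * Real.cosh σ + (Real.sinh ρ * Real.sinh σ +
      x.1.2 ⬝ᵥ y.1.2) - x.1.1 * y.1.1) := by
  have hx := hyp_sq x
  have hy := hyp_sq y
  have x0 := x.2.2
  have y0 := y.2.2
  have C0 := Real.cosh_pos ρ
  have D0 := Real.cosh_pos σ
  have h1 := Real.sinh_sq ρ
  have h2 := Real.sinh_sq σ
  simp only [G, cE, rE, smul_dotProduct, dotProduct_smul, smul_eq_mul]
  generalize x.1.2 ⬝ᵥ x.1.2 = w, y.1.2 ⬝ᵥ y.1.2 = v, x.1.2 ⬝ᵥ y.1.2 = p, x.1.1 = X, y.1.1 = Y, Real.cosh ρ = C,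
    Real.cosh σ = D, Real.sinh ρ = S, Real.sinh σ = T at *
  obtain rfl : w = X * X - 1 := by linarith
  obtain rfl : v = Y * Y - 1 := by linarith
  have a : X + C ≠ 0 := by positivity
  have b : Y + D ≠ 0 := by positivity
  have e1 : (S / (X + C) + T / (Y + D)) ^ 2 = (C ^ 2 - 1) / (X + C) ^ 2 + (D ^ 2 - 1) / (Y + D) ^ 2 +
      2 * (S * T) / ((X + C) * (Y + D)) := by
    rw [← h1, ← h2]; field_simp; ring
  rw [e1]
  field_simp
  ring

theorem memb_H (d : ℕ) (χ : Fm) : Red (BallH d {r | χ.Holds fun _ => Real.cosh r}) ETR := by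
  have := rep_memb (d := d + 2) (Q := fun _ => True) (P := fun x : Pt (d + 2) =>
      ((0 < x.2 0 ∧ x.1 * x.1 = 1 + x.2 0 * x.2 0) ∧ 0 < x.1) ∧
      (0 < x.2 1 ∧ x.2 1 * x.2 1 = 1 + (fun t : Fin d => x.2 t.succ.succ) ⬝ᵥ fun t : Fin d => x.2 t.succ.succ) ∧
      χ.Holds fun _ => x.1)
    (R := fun _ x y => x.2 1 * y.2 1 ≤ x.1 * y.1 + (x.2 0 * y.2 0 + (fun t : Fin d => x.2 t.succ.succ) ⬝ᵥ
      fun t : Fin d => y.2 t.succ.succ))
    (χ := .eq (.num 0) (.num 0)) (ψ := fun u => .and (.and (.and (.lt (.num 0) (.var (2 + (d + 2 + 1) * u)))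
      (.eq (.mul (.var (1 + (d + 2 + 1) * u)) (.var (1 + (d + 2 + 1) * u))) (.add (.num 1) (.mul (.var (2 + (d + 2 + 1) * u))
        (.var (2 + (d + 2 + 1) * u)))))) (.lt (.num 0) (.var (1 + (d + 2 + 1) * u))))
      (.and (.and (.lt (.num 0) (.var (3 + (d + 2 + 1) * u)))
      (.eq (.mul (.var (3 + (d + 2 + 1) * u)) (.var (3 + (d + 2 + 1) * u))) (.add (.num 1)
        (dt (4 + (d + 2 + 1) * u) (4 + (d + 2 + 1) * u) d)))) (yk (1 + (d + 2 + 1) * u) χ)))
    (φ := fun e => .le (.mul (.var (3 + (d + 2 + 1) * e.1)) (.var (3 + (d + 2 + 1) * e.2)))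
      (.add (.mul (.var (1 + (d + 2 + 1) * e.1)) (.var (1 + (d + 2 + 1) * e.2)))
        (.add (.mul (.var (2 + (d + 2 + 1) * e.1)) (.var (2 + (d + 2 + 1) * e.2)))
        (dt (4 + (d + 2 + 1) * e.1) (4 + (d + 2 + 1) * e.2) d))))
    (pt_and (by fun_prop) (pt_and (pt_and (by fun_prop) (pt_eq (by fun_prop) (pt_add (PT.const _)
      (pt_dt (by fun_prop) (by fun_prop) d)))) (pt_yk (by fun_prop) χ)))
    (pt_le (by fun_prop) (pt_add (by fun_prop) (pt_add (by fun_prop) (pt_dt (by fun_prop) (by fun_prop) d))))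
    (fun x => by simp [Fm.Holds])
    (fun x u => by
      have i3 : 3 + (d + 2 + 1) * u = 2 + (d + 2 + 1) * u + 1 := by ring
      have i4 : ∀ t : ℕ, 4 + (d + 2 + 1) * u + t = 2 + (d + 2 + 1) * u + (t + 1 + 1) := fun t => by ring
      simp [Fm.Holds, yk_holds, Tm.eval, dt_eval, pt, i3, i4])
    (fun x u v => by
      have i3 : ∀ u : ℕ, 3 + (d + 2 + 1) * u = 2 + (d + 2 + 1) * u + 1 := fun u => by ring
      have i4 : ∀ u t : ℕ, 4 + (d + 2 + 1) * u + t = 2 + (d + 2 + 1) * u + (t + 1 + 1) := fun u t => by ring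
      simp [Fm.Holds, Tm.eval, dt_eval, pt, i3, i4])
  simp only [true_and, exists_const] at this
  refine UB.Red.of_iff this fun a => (ballH_iff a).trans ⟨fun ⟨c, r, h, q⟩ => ⟨fun u => (Real.cosh (r u),
    Fin.cons (Real.sinh (r u)) (Fin.cons (c u).1.1 (c u).1.2)), fun u => ?_, fun u v t => (q u v t).trans ?_⟩,
    fun ⟨c, h, q⟩ => ⟨fun u => ⟨((c u).2 1, fun t => (c u).2 t.succ.succ), ?_, (h u).2.1.1⟩, fun u => Real.arsinh ((c u).2 0),
      fun u => ⟨Real.arsinh_pos_iff.2 (h u).1.1.1, ?_⟩, fun u v t => (q u v t).trans ?_⟩⟩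
  · have h1 := hyp_sq (c u)
    have h2 := Real.cosh_sq (r u)
    refine ⟨⟨⟨Real.sinh_pos_iff.2 (h u).1, ?_⟩, Real.cosh_pos _⟩, ⟨(c u).2.2, ?_⟩, (h u).2⟩
    · simp only [Fin.cons_zero]
      linarith [sq (Real.cosh (r u)), sq (Real.sinh (r u))]
    · simpa using h1
  · have k := G_hyp (c u) (c v) (r u) (r v)
    have p : 0 < ((c u).1.1 + Real.cosh (r u)) * ((c v).1.1 + Real.cosh (r v)) := by
      have := (c u).2.2; have := (c v).2.2; have := Real.cosh_pos (r u); have := Real.cosh_pos (r v)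
      positivity
    rw [← mul_nonneg_iff_of_pos_left p, k]
    simp only [Fin.cons_zero, Fin.cons_one, Fin.cons_succ]
    constructor <;> intro g <;> linarith
  · have k := (h u).2.1.2
    simp only [dotProduct] at k
    simp only [mink]
    linarith
  · have k : Real.cosh (Real.arsinh ((c u).2 0)) = (c u).1 := by
      rw [Real.cosh_arsinh, Real.sqrt_eq_iff_mul_self_eq (by positivity) (h u).1.2.le]
      linarith [(h u).1.1.2, sq ((c u).2 0)]
    simp only [Set.mem_setOf_eq, k]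
    exact (h u).2.2
  · have kk : ∀ u, Real.cosh (Real.arsinh ((c u).2 0)) = (c u).1 := fun u => by
      rw [Real.cosh_arsinh, Real.sqrt_eq_iff_mul_self_eq (by positivity) (h u).1.2.le]
      linarith [(h u).1.1.2, sq ((c u).2 0)]
    have hm : ∀ u, mink ((c u).2 1, fun t : Fin d => (c u).2 t.succ.succ) ((c u).2 1, fun t : Fin d => (c u).2 t.succ.succ) = 1 :=
      fun u => by
        have k := (h u).2.1.2
        simp only [dotProduct] at k
        simp only [mink]
        linarith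
    have k := G_hyp ⟨((c u).2 1, fun t : Fin d => (c u).2 t.succ.succ), hm u, (h u).2.1.1⟩
      ⟨((c v).2 1, fun t : Fin d => (c v).2 t.succ.succ), hm v, (h v).2.1.1⟩ (Real.arsinh ((c u).2 0)) (Real.arsinh ((c v).2 0))
    have p : 0 < ((c u).2 1 + Real.cosh (Real.arsinh ((c u).2 0))) * ((c v).2 1 + Real.cosh (Real.arsinh ((c v).2 0))) := by
      have := (h u).2.1.1; have := (h v).2.1.1; have := Real.cosh_pos (Real.arsinh ((c u).2 0))
      have := Real.cosh_pos (Real.arsinh ((c v).2 0))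
      positivity
    rw [← mul_nonneg_iff_of_pos_left p, k]
    simp only [kk, Real.sinh_arsinh]
    constructor <;> intro g <;> linarith

end Pool.Agent.KS6_60.BL
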